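import Pool.Agent.H38.CUBE.JJStmts2

/-!
# MP_47888e_al, block CONT/JJ, part 2: module FIXR, the finitely many fixed rational functions
-/

set_option autoImplicit false

open Polynomial

namespace Pool.CUBE

open Pool.CM Pool.H93.Cube

namespace F_FIXR

variable {E : Type} [Field E]

theorem affR_algebraMap (u v : E) (hu : u ≠ 0) (g : E[X]) :
    affR u v hu (algebraMap E[X] (RatFunc E) g) = algebraMap E[X] (RatFunc E) (affP u v g) := by
  have h := RatFunc.map_apply_div (affP u v) (affP_le u v hu) g 1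
  rw [map_one, map_one, map_one, div_one, div_one] at h
  exact h

theorem affP_C (u v c : E) : affP u v (Polynomial.C c) = Polynomial.C c := by
  simp [affP]

theorem affP_X (u v : E) : affP u v Polynomial.X = Polynomial.C u * Polynomial.X +
    Polynomial.C v := by
  simp [affP]

/-- `qq ^ n` clears the denominators for all large `c` -/
def Good (n D : ℕ) (r : RatFunc E) : Prop :=
  ∃ c0 : ℕ, ∀ c, c0 ≤ c → ∃ g : E[X],
    algebraMap E[X] (RatFunc E) (qq E c D) ^ n * r = algebraMap E[X] (RatFunc E) g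

theorem Good.zero (n D : ℕ) : Good n D (0 : RatFunc E) :=
  ⟨0, fun c _ => ⟨0, by rw [mul_zero, map_zero]⟩⟩

theorem Good.add {n D : ℕ} {r s : RatFunc E} (hr : Good n D r) (hs : Good n D s) :
    Good n D (r + s) := by
  obtain ⟨c1, h1⟩ := hr
  obtain ⟨c2, h2⟩ := hs
  refine ⟨max c1 c2, fun c hc => ?_⟩
  obtain ⟨g1, e1⟩ := h1 c (le_trans (le_max_left _ _) hc)
  obtain ⟨g2, e2⟩ := h2 c (le_trans (le_max_right _ _) hc)
  exact ⟨g1 + g2, by rw [mul_add, e1, e2, map_add]⟩

theorem Good.sum {n D : ℕ} {ι : Type} (s : Finset ι) (f : ι → RatFunc E)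
    (h : ∀ x ∈ s, Good n D (f x)) : Good n D (∑ x ∈ s, f x) := by
  classical
  induction s using Finset.induction_on with
  | empty => rw [Finset.sum_empty]; exact Good.zero n D
  | insert a s ha ih =>
    rw [Finset.sum_insert ha]
    exact (h a (Finset.mem_insert_self a s)).add
      (ih fun x hx => h x (Finset.mem_insert_of_mem hx))

theorem Good.mul {n D : ℕ} {r : RatFunc E} (p : E[X]) (hr : Good n D r) :
    Good n D (algebraMap E[X] (RatFunc E) p * r) := by
  obtain ⟨c1, h1⟩ := hr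
  refine ⟨c1, fun c hc => ?_⟩
  obtain ⟨g1, e1⟩ := h1 c hc
  exact ⟨p * g1, by rw [mul_left_comm, e1, map_mul]⟩

theorem Good.prod {n D : ℕ} (f : Fin n → RatFunc E) (h : ∀ i, Good 1 D (f i)) :
    Good n D (∏ i, f i) := by
  choose c0 h0 using h
  refine ⟨Finset.univ.sup c0, fun c hc => ?_⟩
  have h1 : ∀ i, ∃ g : E[X],
      algebraMap E[X] (RatFunc E) (qq E c D) ^ 1 * f i = algebraMap E[X] (RatFunc E) g :=
    fun i => h0 i c (le_trans (Finset.le_sup (Finset.mem_univ i)) hc)
  choose g hg using h1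
  refine ⟨∏ i, g i, ?_⟩
  rw [map_prod, ← Finset.prod_congr rfl (fun i _ => hg i), Finset.prod_mul_distrib,
    Finset.prod_const, Finset.card_univ, Fintype.card_fin, pow_one]

theorem good_factor [CharZero E] (D : ℕ) (b : ℤ) (m : ℕ) (hm : m ≤ D) :
    Good 1 D ((algebraMap E[X] (RatFunc E)
      (Polynomial.C (b : E) + Polynomial.C (m : E) * Polynomial.X))⁻¹) := by
  classical
  rcases Nat.eq_zero_or_pos m with h0 | h0
  · refine ⟨0, fun c _ => ⟨qq E c D * Polynomial.C ((b : E)⁻¹), ?_⟩⟩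
    subst h0
    rw [Nat.cast_zero, Polynomial.C_0, zero_mul, add_zero, pow_one, map_mul, RatFunc.algebraMap_C,
      RatFunc.algebraMap_C, map_inv₀]
  · refine ⟨b.natAbs, fun c hc => ?_⟩
    have hb : b ∈ Finset.Icc (-(c : ℤ)) c := by
      rw [Finset.mem_Icc]
      omega
    have hm' : m ∈ Finset.Icc 1 D := by
      rw [Finset.mem_Icc]
      exact ⟨h0, hm⟩
    have e1 : qq E c D = (Polynomial.C (b : E) + Polynomial.C (m : E) * Polynomial.X) *
        ((∏ m' ∈ (Finset.Icc 1 D).erase m,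
          (Polynomial.C (b : E) + Polynomial.C (m' : E) * Polynomial.X)) *
        ∏ b' ∈ (Finset.Icc (-(c : ℤ)) c).erase b, ∏ m' ∈ Finset.Icc 1 D,
          (Polynomial.C (b' : E) + Polynomial.C (m' : E) * Polynomial.X)) := by
      rw [← mul_assoc, Finset.mul_prod_erase (Finset.Icc 1 D)
        (fun m' : ℕ => Polynomial.C (b : E) + Polynomial.C (m' : E) * Polynomial.X) hm',
        Finset.mul_prod_erase (Finset.Icc (-(c : ℤ)) c)
        (fun b' : ℤ => ∏ m' ∈ Finset.Icc 1 D,
          (Polynomial.C (b' : E) + Polynomial.C (m' : E) * Polynomial.X)) hb]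
      rfl
    have hne : (Polynomial.C (b : E) + Polynomial.C (m : E) * Polynomial.X) ≠ 0 := by
      intro h
      have h2 := congrArg (fun q : E[X] => q.coeff 1) h
      simp only [Polynomial.coeff_add, Polynomial.coeff_C_mul, Polynomial.coeff_X_one, mul_one,
        Polynomial.coeff_zero] at h2
      rw [Polynomial.coeff_C_of_ne_zero one_ne_zero, zero_add] at h2
      exact (Nat.cast_ne_zero.2 (Nat.pos_iff_ne_zero.1 h0)) h2
    have hne' : algebraMap E[X] (RatFunc E)
        (Polynomial.C (b : E) + Polynomial.C (m : E) * Polynomial.X) ≠ 0 :=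
      RatFunc.algebraMap_ne_zero hne
    refine ⟨(∏ m' ∈ (Finset.Icc 1 D).erase m,
          (Polynomial.C (b : E) + Polynomial.C (m' : E) * Polynomial.X)) *
        ∏ b' ∈ (Finset.Icc (-(c : ℤ)) c).erase b, ∏ m' ∈ Finset.Icc 1 D,
          (Polynomial.C (b' : E) + Polynomial.C (m' : E) * Polynomial.X), ?_⟩
    rw [e1, pow_one, map_mul, mul_comm, ← mul_assoc, inv_mul_cancel₀ hne', one_mul]

theorem Mx_le {n : ℕ} (μ : Fin n →₀ ℕ) (i : Fin n) : Mx μ i ≤ μ.degree := by
  rw [Finsupp.degree_eq_sum]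
  exact Finset.sum_le_sum_of_subset (Finset.filter_subset _ _)

theorem affR_affR_factor (u v : E) (B m : ℕ) (b : ℤ) (h : (B : E) + (m : E) * (u + v) = b) :
    affR 1 u one_ne_zero (affR 1 v one_ne_zero
      (((B : RatFunc E) + (m : RatFunc E) * RatFunc.X)⁻¹)) =
      (algebraMap E[X] (RatFunc E)
        (Polynomial.C (b : E) + Polynomial.C (m : E) * Polynomial.X))⁻¹ := by
  have e : ((B : RatFunc E) + (m : RatFunc E) * RatFunc.X) =
      algebraMap E[X] (RatFunc E) (Polynomial.C (B : E) + Polynomial.C (m : E) * Polynomial.X) := by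
    rw [map_add, map_mul, RatFunc.algebraMap_C, RatFunc.algebraMap_C, RatFunc.algebraMap_X,
      map_natCast, map_natCast]
  rw [map_inv₀, map_inv₀, e, affR_algebraMap, affR_algebraMap]
  congr 2
  rw [map_add, map_mul, affP_C, affP_C, affP_X, map_add, map_mul, affP_C, affP_C, map_add, map_mul,
    affP_X, affP_C, affP_C, ← h]
  simp only [Polynomial.C_add, Polynomial.C_mul, Polynomial.C_1]
  ring

/-- the Mellin transform of a polynomial after two shifts -/
theorem good_mell [CharZero E] {n : ℕ} (D : ℕ) (μ : Fin n →₀ ℕ) (hμ : μ.degree < D)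
    (h : MvPolynomial (Fin n) E) (k j : ℤ) :
    Good n D (affR 1 (k : E) one_ne_zero (affR 1 (j : E) one_ne_zero (Mell μ h))) := by
  classical
  have e : Mell μ h = ∑ γ ∈ h.support, algebraMap E[X] (RatFunc E)
      (Polynomial.C (MvPolynomial.coeff γ h)) *
      ∏ i, (((Bx γ i : ℕ) : RatFunc E) + ((Mx μ i : ℕ) : RatFunc E) * RatFunc.X)⁻¹ := by
    conv_lhs => rw [← MvPolynomial.support_sum_monomial_coeff h]
    rw [map_sum]
    refine Finset.sum_congr rfl fun γ _ => ?_
    rw [Mell, linMon_monomial, Algebra.smul_def, RatFunc.algebraMap_C, RatFunc.algebraMap_eq_C]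
  rw [e, map_sum, map_sum]
  refine Good.sum _ _ fun γ _ => ?_
  rw [map_mul, map_mul, affR_algebraMap, affR_algebraMap, map_prod, map_prod]
  refine Good.mul _ (Good.prod _ fun i => ?_)
  rw [affR_affR_factor (k : E) (j : E) (Bx γ i) (Mx μ i)
    ((Bx γ i : ℤ) + (Mx μ i : ℤ) * (k + j)) (by push_cast; ring)]
  exact good_factor D _ _ ((Mx_le μ i).trans hμ.le)

theorem good_rr [CharZero E] {n : ℕ} (K : Corner n E) (L : ℕ)
    (g : MvPolynomial (Fin (n + 1)) E) (l t : ℕ) (k : ℤ) :
    Good n K.D (affR 1 (k : E) one_ne_zero (K.rr L g l t)) := by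
  have e1 : ((-1 : RatFunc E) ^ l * (((L + l - 1).factorial : RatFunc E) /
      (l.factorial : RatFunc E)) * binR E (L + l - 1)) = algebraMap E[X] (RatFunc E)
      ((-1) ^ l * Polynomial.C (((L + l - 1).factorial : E) / (l.factorial : E)) *
        (Polynomial.C (((L + l - 1).factorial : E)⁻¹) * descPochhammer E (L + l - 1))) := by
    rw [map_mul, map_mul, map_pow, map_neg, map_one, RatFunc.algebraMap_C, map_div₀, map_natCast,
      map_natCast]
    rfl
  have e2 : (1 - (L : E) - (l : E)) = ((1 - (L : ℤ) - (l : ℤ) : ℤ) : E) := by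
    push_cast
    ring
  have e3 : ∀ (v v' : E) (_ : v = v') (r : RatFunc E),
      affR 1 v one_ne_zero r = affR 1 v' one_ne_zero r := by
    rintro v _ rfl r
    rfl
  rw [Corner.rr, map_mul, e1, affR_algebraMap]
  refine Good.mul _ ?_
  rw [e3 _ _ e2, map_sum, map_sum]
  refine Good.sum _ _ fun j _ => ?_
  rw [map_mul, map_mul, binR, affR_algebraMap, affR_algebraMap]
  exact Good.mul _ (good_mell K.D K.μ K.hμ _ k _)

/-- the finite set of parameters -/
abbrev Par (n N C : ℕ) : Type :=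
  (Fin (n + 1) → Fin N) × Fin (C + 1) × Fin (C + 1) × Fin (2 * C + 1)

/-- the exponent of a parameter -/
noncomputable def expo {n N C : ℕ} (x : Par n N C) : Fin (n + 1) →₀ ℕ :=
  Finsupp.equivFunOnFinite.symm fun i => (x.1 i : ℕ)

end F_FIXR

open F_FIXR in
theorem fixr_thm (h1 : RSCStmt) : Corner.FIXRStmt := by
  classical
  intro X E _ _ A hA n K C
  obtain ⟨-, -, -, -, hs, hm, hq, -⟩ := h1 E
  have hg : ∀ x : Par n (K.D * (C + 1)) C,
      Good n K.D (affR 1 (((((x.2.2.2 : ℕ) : ℤ) - (C : ℤ) : ℤ)) : E) one_ne_zero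
        (K.rr (K.lv (expo x)) (MvPolynomial.monomial (expo x) 1) x.2.1 x.2.2.1)) := fun x =>
    good_rr K _ _ _ _ _
  choose c0 hc0 using hg
  refine ⟨Finset.univ.sup c0, fun c hc => ?_⟩
  have h2 : ∀ x : Par n (K.D * (C + 1)) C, ∃ g : E[X],
      algebraMap E[X] (RatFunc E) (qq E c K.D) ^ n *
        (affR 1 (((((x.2.2.2 : ℕ) : ℤ) - (C : ℤ) : ℤ)) : E) one_ne_zero
        (K.rr (K.lv (expo x)) (MvPolynomial.monomial (expo x) 1) x.2.1 x.2.2.1)) =
        algebraMap E[X] (RatFunc E) g := fun x =>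
    hc0 x c (le_trans (Finset.le_sup (Finset.mem_univ x)) hc)
  choose g hg using h2
  refine ⟨Finset.univ.sup fun x => (g x).natDegree, ?_⟩
  have hEv : X.Ev fun i => ∀ x : Par n (K.D * (C + 1)) C, A.Int i (g x) := by
    refine Idx.Ev.all fun x => ?_
    have h3 : X.Ev fun i => ∀ m ∈ (g x).support, (g x).coeff m ∈ A.O i := by
      refine Idx.Ev.allFinset _ fun m hm => ?_
      exact (hA.pf2 _ (Polynomial.mem_support_iff.1 hm)).mono fun i hi => hi.2.1
    refine h3.mono fun i hi m => ?_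
    by_cases hm : m ∈ (g x).support
    · exact hi m hm
    · rw [Polynomial.notMem_support_iff.1 hm]
      exact (A.O i).zero_mem
  refine hEv.mono fun i hi b l t k hb hlv hl ht hk => ?_
  have hbd : ∀ j, b j < K.D * (C + 1) := by
    intro j
    have e1 : b.degree + (n + 1) < K.D * (C + 1) := by
      have e2 : (b.degree + (n + 1)) / K.D ≤ C := hlv
      have e3 := Nat.lt_mul_div_succ (b.degree + (n + 1)) K.hD
      exact lt_of_lt_of_le e3 (Nat.mul_le_mul_left _ (by omega))
    have e4 : b j ≤ b.degree := by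
      rw [Finsupp.degree_eq_sum]
      exact Finset.single_le_sum (f := fun j => b j) (fun _ _ => Nat.zero_le _) (Finset.mem_univ j)
    omega
  have hk' := abs_le.1 hk
  have hkn : (k + C).toNat < 2 * C + 1 := by omega
  set x : Par n (K.D * (C + 1)) C :=
    (fun j => ⟨b j, hbd j⟩, ⟨l, by omega⟩, ⟨t, by omega⟩, ⟨(k + C).toNat, hkn⟩) with hx
  have hex : expo x = b := by
    ext j
    rfl
  have hkx : (((x.2.2.2 : ℕ) : ℤ) - (C : ℤ) : ℤ) = k := by
    have : ((x.2.2.2 : ℕ) : ℤ) = ((k + C).toNat : ℤ) := rfl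
    omega
  have hgx := hg x
  rw [hex] at hgx
  have hgx' : algebraMap E[X] (RatFunc E) (qq E c K.D) ^ n *
      (affR 1 (k : E) one_ne_zero (K.rr (K.lv b) (MvPolynomial.monomial b 1) l t)) =
        algebraMap E[X] (RatFunc E) (g x) := by
    rw [← hgx]
    congr 1
    have e3 : ∀ (v v' : E) (_ : v = v') (r : RatFunc E),
        affR 1 v one_ne_zero r = affR 1 v' one_ne_zero r := by
      rintro v _ rfl r
      rfl
    exact (e3 _ _ (by rw [hkx]) _).symm
  refine ⟨(g x).map (A.phi i), fun m => ?_, ?_, ?_⟩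
  · rw [Polynomial.coeff_map]
    exact hA.phi_O i _ (hi x m)
  · exact le_trans Polynomial.natDegree_map_le
      (Finset.le_sup (f := fun x => (g x).natDegree) (Finset.mem_univ x))
  · rw [← hm, ← hgx', map_mul, map_pow, hm, hq, hs]

end Pool.CUBE
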